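import Pool.Agent.Y213.CT.Stm

/-!
Project CT, job PLC (helper564): the residue place of the algebraic closure of `K_v`.
`exists_ext` is copied from `Pool/Agent/Y213/BD/Ext.lean`.
-/

set_option autoImplicit false

namespace Pool.Agent.Y564.CT

open NumberField IsDedekindDomain Pool.Agent.H901R3.MS Pool.Agent.Y213.CB
open Pool.Agent.Y213.CT (StPlc)

/-- homomorphisms to an algebraically closed field extend to integral extensions -/
theorem exists_ext (R S k : Type) [CommRing R] [CommRing S] [Algebra R S] [Algebra.IsIntegral R S]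
    (hinj : Function.Injective (algebraMap R S)) [Field k] [IsAlgClosed k] (f : R →+* k) :
    ∃ ψ : S →+* k, ∀ x, ψ (algebraMap R S x) = f x := by
  have : (RingHom.ker f).IsPrime := RingHom.ker_isPrime f
  obtain ⟨Q, -, hQ, hQP⟩ := Ideal.exists_ideal_over_prime_of_isIntegral (S := S) (RingHom.ker f) ⊥
    (by
      intro x hx
      rw [Ideal.mem_comap, Ideal.mem_bot] at hx
      have : x = 0 := hinj (by rw [hx, map_zero])
      rw [this]
      exact Ideal.zero_mem _)
  have := hQ
  have : Q.LiesOver (RingHom.ker f) := ⟨hQP.symm⟩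
  letI : Algebra (R ⧸ RingHom.ker f) k := (Ideal.Quotient.lift (RingHom.ker f) f
    (fun x hx => hx)).toAlgebra
  have h1 : FaithfulSMul (R ⧸ RingHom.ker f) k := by
    rw [faithfulSMul_iff_algebraMap_injective]
    exact RingHom.kerLift_injective f
  have h2 : FaithfulSMul (R ⧸ RingHom.ker f) (S ⧸ Q) := by
    rw [faithfulSMul_iff_algebraMap_injective]
    rw [injective_iff_map_eq_zero]
    intro x
    obtain ⟨x, rfl⟩ := Ideal.Quotient.mk_surjective x
    intro hx
    have h3 : algebraMap (R ⧸ RingHom.ker f) (S ⧸ Q) (Ideal.Quotient.mk _ x) =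
        Ideal.Quotient.mk Q (algebraMap R S x) := rfl
    rw [h3, Ideal.Quotient.eq_zero_iff_mem] at hx
    rw [Ideal.Quotient.eq_zero_iff_mem, ← hQP]
    exact hx
  have : IsDomain (S ⧸ Q) := inferInstance
  have : Algebra.IsIntegral (R ⧸ RingHom.ker f) (S ⧸ Q) := inferInstance
  have : Algebra.IsAlgebraic (R ⧸ RingHom.ker f) (S ⧸ Q) := inferInstance
  let g : S ⧸ Q →ₐ[R ⧸ RingHom.ker f] k := IsAlgClosed.lift
  refine ⟨(g : S ⧸ Q →+* k).comp (Ideal.Quotient.mk Q), fun x => ?_⟩
  have h3 : Ideal.Quotient.mk Q (algebraMap R S x) =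
    algebraMap (R ⧸ RingHom.ker f) (S ⧸ Q) (Ideal.Quotient.mk _ x) := rfl
  rw [RingHom.comp_apply, h3]
  have h4 := g.commutes (Ideal.Quotient.mk _ x)
  exact h4

section

variable {L C F k : Type} [NontriviallyNormedField L] [IsUltrametricDist L] [CompleteSpace L]
  [Field C] [Algebra L C] [Algebra.IsAlgebraic L C] [Field F] [Field k]

theorem sn_mul (x y : C) :
    spectralNorm L C (x * y) = spectralNorm L C x * spectralNorm L C y := by
  have h := spectralAlgNorm_mul (K := L) x y
  rwa [spectralAlgNorm_def, spectralAlgNorm_def, spectralAlgNorm_def] at h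

theorem sn_pow (x : C) (n : ℕ) : spectralNorm L C (x ^ n) = spectralNorm L C x ^ n := by
  induction n with
  | zero => rw [pow_zero, pow_zero, spectralNorm_one]
  | succ n ih => rw [pow_succ, pow_succ, sn_mul, ih]

theorem sn_inv {x : C} (hx : x ≠ 0) : spectralNorm L C x * spectralNorm L C x⁻¹ = 1 := by
  rw [← sn_mul, mul_inv_cancel₀ hx, spectralNorm_one]

theorem integral_of_le (w : Place L F) (hw : ∀ x, ‖x‖ ≤ 1 ↔ x ∈ w.A) (x : C)
    (hx : spectralNorm L C x ≤ 1) : IsIntegral w.A x := by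
  have hm : (minpoly L x).Monic := minpoly.monic (Algebra.IsIntegral.isIntegral x)
  have h1 : ∀ n, ‖(minpoly L x).coeff n‖ ≤ 1 := (spectralValue_le_one_iff hm).1 hx
  have hlift : minpoly L x ∈ Polynomial.lifts (algebraMap w.A L) := by
    rw [Polynomial.lifts_iff_coeff_lifts]
    intro n
    exact ⟨⟨_, (hw _).1 (h1 n)⟩, rfl⟩
  obtain ⟨q, hq1, -, hq3⟩ := Polynomial.lifts_and_degree_eq_and_monic hlift hm
  refine ⟨q, hq3, ?_⟩
  have h2 : Polynomial.eval₂ (algebraMap w.A C) x q = Polynomial.aeval x (minpoly L x) := by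
    rw [← hq1, Polynomial.aeval_def, Polynomial.eval₂_map]
    rfl
  rw [h2, minpoly.aeval]

theorem plc_gen [IsAlgClosed k] (w : Place L F) (hw : ∀ x, ‖x‖ ≤ 1 ↔ x ∈ w.A) (c : F →+* k)
    (π : L) (hπ0 : π ≠ 0) (hπ : w.r π = 0) (hπA : π ∈ w.A) :
    ∃ pl : Place C k, (∀ x ∈ w.A, algebraMap L C x ∈ pl.A ∧
      pl.r (algebraMap L C x) = c (w.r x)) ∧ ∀ x, algebraMap L C x ∈ pl.A → x ∈ w.A := by
  obtain ⟨ψ, hψ⟩ := exists_ext w.A (integralClosure w.A C) k (by
    intro x y hxy
    have h1 : algebraMap L C (x : L) = algebraMap L C (y : L) :=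
      congrArg (fun z : integralClosure w.A C => (z : C)) hxy
    exact Subtype.ext ((algebraMap L C).injective h1)) (c.comp w.ρ)
  have hmem : ∀ x : C, spectralNorm L C x ≤ 1 → x ∈ integralClosure w.A C := fun x hx =>
    integral_of_le w hw x hx
  have hwm : ∀ x : L, x ∈ w.A → algebraMap L C x ∈ integralClosure w.A C := by
    intro x hx
    refine hmem _ ?_
    rw [spectralNorm_extends]
    exact (hw x).2 hx
  have hψw : ∀ (x : L) (hx : x ∈ w.A), ψ ⟨algebraMap L C x, hwm x hx⟩ = c (w.r x) := by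
    intro x hx
    rw [w.r_of hx]
    exact hψ ⟨x, hx⟩
  have hπn : 0 < ‖π‖ := norm_pos_iff.2 hπ0
  -- small elements
  have hsmall : ∀ (x : C) (hx : spectralNorm L C x < 1), ψ ⟨x, hmem x hx.le⟩ = 0 := by
    intro x hx
    obtain ⟨n, hn⟩ := exists_pow_lt_of_lt_one hπn hx
    have hz : spectralNorm L C (x ^ n * algebraMap L C π⁻¹) ≤ 1 := by
      rw [sn_mul, sn_pow, spectralNorm_extends, norm_inv]
      rw [← div_eq_mul_inv, div_le_one hπn]
      exact hn.le
    have h1 : (⟨x, hmem x hx.le⟩ : integralClosure w.A C) ^ n =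
        ⟨x ^ n * algebraMap L C π⁻¹, hmem _ hz⟩ * ⟨algebraMap L C π, hwm π hπA⟩ := by
      apply Subtype.ext
      show x ^ n = x ^ n * algebraMap L C π⁻¹ * algebraMap L C π
      rw [mul_assoc, ← map_mul, inv_mul_cancel₀ hπ0, map_one, mul_one]
    have h2 := congrArg ψ h1
    rw [map_pow, map_mul, hψw π hπA, hπ, map_zero, mul_zero] at h2
    exact eq_zero_of_pow_eq_zero h2
  have hinv : ∀ x : C, 1 < spectralNorm L C x → spectralNorm L C x⁻¹ < 1 := by
    intro x hx
    have hx0 : x ≠ 0 := by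
      rintro rfl
      rw [spectralNorm_zero] at hx
      linarith
    have h1 := sn_inv (L := L) hx0
    by_contra hcon
    rw [not_lt] at hcon
    nlinarith
  have hle : ∀ x : C, x ∈ integralClosure w.A C → spectralNorm L C x ≤ 1 := by
    intro x hx
    by_contra hcon
    rw [not_le] at hcon
    have h1 := hinv x hcon
    have hx0 : x ≠ 0 := by
      rintro rfl
      rw [spectralNorm_zero] at hcon
      linarith
    have h2 : (⟨x, hx⟩ : integralClosure w.A C) * ⟨x⁻¹, hmem _ h1.le⟩ = 1 :=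
      Subtype.ext (mul_inv_cancel₀ hx0)
    have h3 := congrArg ψ h2
    rw [map_mul, hsmall _ h1, mul_zero, map_one] at h3
    exact zero_ne_one h3
  let ι : (integralClosure w.A C).toSubring →+* integralClosure w.A C :=
    { toFun := fun x => ⟨x.1, x.2⟩
      map_one' := rfl
      map_zero' := rfl
      map_add' := fun _ _ => rfl
      map_mul' := fun _ _ => rfl }
  let pl : Place C k :=
    { A := (integralClosure w.A C).toSubring
      ρ := ψ.comp ι
      inv_of_notMem := fun x hx => by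
        have h1 : 1 < spectralNorm L C x := by
          by_contra hcon
          exact hx (hmem x (not_lt.1 hcon))
        exact ⟨hmem _ (hinv x h1).le, hsmall _ (hinv x h1)⟩
      inv_of_ne := fun x hx => by
        refine hmem _ ?_
        by_contra hcon
        rw [not_le] at hcon
        have h1 : spectralNorm L C (x : C) < 1 := by
          have := hinv _ hcon
          rwa [inv_inv] at this
        exact hx (hsmall _ h1) }
  refine ⟨pl, fun x hx => ⟨hwm x hx, ?_⟩, fun x hx => ?_⟩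
  · rw [pl.r_of (hwm x hx)]
    exact hψw x hx
  · have h1 := hle _ hx
    rw [spectralNorm_extends] at h1
    exact (hw x).1 h1

end

theorem plc : StPlc := by
  intro K _ _ p _ hp φ k _ _ c
  obtain ⟨w, hw1, hw2⟩ := exists_place_g p hp φ
  have hφ0 : φ ((p : ℕ) : 𝓞 K) = 0 := by
    rw [map_natCast]
    exact CharP.cast_eq_zero (ZMod p) p
  have hπ1 := hw1 ((p : ℕ) : 𝓞 K)
  rw [hφ0] at hπ1
  obtain ⟨π, hπd⟩ : ∃ π : (hspG p hp φ).adicCompletion K,
      π = algebraMap K ((hspG p hp φ).adicCompletion K) (((p : ℕ) : 𝓞 K) : K) := ⟨_, rfl⟩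
  rw [← hπd] at hπ1
  have hπ0 : π ≠ 0 := by
    rw [hπd, Ne, map_eq_zero]
    intro h0
    have h1 : ((p : ℕ) : 𝓞 K) = 0 := by
      apply RingOfIntegers.ext
      rw [h0]
      rfl
    exact hp (Nat.cast_eq_zero.1 h1)
  have hπn : 1 < ‖π⁻¹‖ := by
    by_contra hcon
    rw [not_lt] at hcon
    have h1 : π⁻¹ ∈ w.A := (hw2 _).1 hcon
    have h2 := w.r_mul hπ1.1 h1
    rw [mul_inv_cancel₀ hπ0, hπ1.2, zero_mul, w.r_one] at h2
    exact one_ne_zero h2
  letI : NontriviallyNormedField ((hspG p hp φ).adicCompletion K) :=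
    { (inferInstance : NormedField ((hspG p hp φ).adicCompletion K)) with
      non_trivial := ⟨π⁻¹, hπn⟩ }
  have hum : IsUltrametricDist ((hspG p hp φ).adicCompletion K) := inferInstance
  have hcs : CompleteSpace ((hspG p hp φ).adicCompletion K) := inferInstance
  obtain ⟨pl, h1, h2⟩ := plc_gen (C := AlgebraicClosure ((hspG p hp φ).adicCompletion K)) w hw2 c π
    hπ0 hπ1.2 hπ1.1
  refine ⟨pl, fun x => ?_, fun x hx => ?_⟩
  · obtain ⟨h3, h4⟩ := hw1 x
    obtain ⟨h5, h6⟩ := h1 _ h3
    refine ⟨h5, ?_⟩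
    rw [h6, h4]
  · exact ⟨w.r x, (h1 _ (h2 x hx)).2⟩

end Pool.Agent.Y564.CT
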